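import Pool.Agent.Helper80.KC.Goals

/-!
Packet KC-ENDB (project KC, MP_eaa1a7_co): two exceptional members.
-/

set_option autoImplicit false

open Module

namespace Pool.Agent.Helper2.KC

open Pool.Agent.Helper80.KC

section

variable {V : Type} [NormedAddCommGroup V] [InnerProductSpace ℝ V] [FiniteDimensional ℝ V]

/-- a subspace with a nonzero vector has positive dimension. -/
theorem one_le_finrank {W : Submodule ℝ V} {a : V} (ha : a ≠ 0) (haW : a ∈ W) :
    1 ≤ finrank ℝ W := by
  rw [Nat.one_le_iff_ne_zero, Ne, Submodule.finrank_eq_zero]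
  rintro rfl
  exact ha (by simpa using haW)

/-- a plane and a further vector span a space of dimension three. -/
theorem eq_sup_span {M D : Submodule ℝ V} {g : V} (hM : finrank ℝ M = 3) (hD : finrank ℝ D = 2)
    (hDM : D ≤ M) (hgM : g ∈ M) (hgD : g ∉ D) : M = D ⊔ Submodule.span ℝ {g} := by
  have h1 : D ⊔ Submodule.span ℝ {g} ≤ M :=
    sup_le hDM ((Submodule.span_singleton_le_iff_mem g M).2 hgM)
  have h2 : D < D ⊔ Submodule.span ℝ {g} := by
    refine lt_of_le_of_ne le_sup_left fun h => hgD ?_
    rw [h]
    exact Submodule.mem_sup_right (Submodule.mem_span_singleton_self g)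
  have h3 := Submodule.finrank_lt_finrank_of_lt h2
  exact (Submodule.eq_of_le_of_finrank_le h1 (by omega)).symm

end

theorem goalENDB (hF : G_FOLD) (hL : G_LEM) : G_ENDB := by
  classical
  intro k V _ _ _ N p f a u v w hc ha haN huv hwu hwv hNuv h2
  have hcase1 : ∀ Y : Submodule ℝ V, finrank ℝ Y ≤ 4 → (∀ x, x ≠ u → x ≠ v → N x ≤ Y) →
      Cf k (E 6) := by
    intro Y hY hN
    have haY : a ∈ Y := hN w hwu hwv (haN w)
    refine hF k V N p f Y (fun x => Y ⊔ N x) hc (fun i => le_sup_left) (fun i => le_sup_right)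
      ?_ ?_
    · intro i
      have h3 := Submodule.finrank_sup_add_finrank_inf_eq Y (N i)
      have h4 : 1 ≤ finrank ℝ (Y ⊓ N i : Submodule ℝ V) := one_le_finrank ha ⟨haY, haN i⟩
      have h5 := hc.dim i
      show finrank ℝ (Y ⊔ N i : Submodule ℝ V) ≤ 6
      omega
    · intro i j hij
      right
      by_cases hi : i ≠ u ∧ i ≠ v
      · exact hN i hi.1 hi.2 (hc.fl i j hij)
      by_cases hj : j ≠ u ∧ j ≠ v
      · exact hN j hj.1 hj.2 (hc.fr i j hij)
      have h3 : Submodule.span ℝ {a} ≤ Y := (Submodule.span_singleton_le_iff_mem a Y).2 haY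
      have h4 : f i j ∈ N u ⊓ N v := by
        have hi' : i = u ∨ i = v := by tauto
        have hj' : j = u ∨ j = v := by tauto
        rcases hi' with rfl | rfl <;> rcases hj' with rfl | rfl
        · exact absurd rfl hij
        · exact ⟨hc.fl _ _ hij, hc.fr _ _ hij⟩
        · exact ⟨hc.fr _ _ hij, hc.fl _ _ hij⟩
        · exact absurd rfl hij
      rw [hNuv] at h4
      exact h3 h4
  rcases hL k V N {x | x ≠ u ∧ x ≠ v} hc.dim
    (fun x hx y hy => h2 x y hx.1 hx.2 hy.1 hy.2) with ⟨Y, hY, hN⟩ | ⟨D, hD, hN⟩
  · exact hcase1 Y hY fun x hu hv => hN x ⟨hu, hv⟩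
  by_cases haD : a ∈ D
  · -- the main case
    set Y₀ : Submodule ℝ V := D ⊔ N u ⊔ N v with hY₀
    have hDY : D ≤ Y₀ := le_sup_left.trans le_sup_left
    have huY : N u ≤ Y₀ := le_sup_right.trans le_sup_left
    have hvY : N v ≤ Y₀ := le_sup_right
    have hdim : finrank ℝ Y₀ ≤ 6 := by
      have h3 := Submodule.finrank_sup_add_finrank_inf_eq D (N u)
      have h4 : 1 ≤ finrank ℝ (D ⊓ N u : Submodule ℝ V) := one_le_finrank ha ⟨haD, haN u⟩
      have h5 := Submodule.finrank_sup_add_finrank_inf_eq (D ⊔ N u) (N v)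
      have h6 : 1 ≤ finrank ℝ ((D ⊔ N u) ⊓ N v : Submodule ℝ V) :=
        one_le_finrank ha ⟨Submodule.mem_sup_left haD, haN v⟩
      have h7 := hc.dim u
      have h8 := hc.dim v
      rw [hY₀]
      omega
    have hS : ∀ x, ¬ N x ≤ Y₀ → x ≠ u ∧ x ≠ v := by
      intro x hx
      constructor
      · rintro rfl
        exact hx huY
      · rintro rfl
        exact hx hvY
    have hkey : ∀ x, ¬ N x ≤ Y₀ → ∀ g ∈ N x, g ∈ Y₀ → g ∈ D := by
      intro x hx g hg hgY
      by_contra hgD
      apply hx
      rw [eq_sup_span (hc.dim x) hD (hN x (hS x hx)) hg hgD]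
      exact sup_le hDY ((Submodule.span_singleton_le_iff_mem g Y₀).2 hgY)
    refine hF k V N p f D (fun x => if N x ≤ Y₀ then Y₀ else N x) hc ?_ ?_ ?_ ?_
    · intro i
      by_cases hi : N i ≤ Y₀
      · simp only [hi, if_true]
        exact hDY
      · simp only [hi, if_false]
        exact hN i (hS i hi)
    · intro i
      show N i ≤ if N i ≤ Y₀ then Y₀ else N i
      by_cases hi : N i ≤ Y₀
      · rw [if_pos hi]
        exact hi
      · rw [if_neg hi]
    · intro i
      show finrank ℝ (if N i ≤ Y₀ then Y₀ else N i : Submodule ℝ V) ≤ 6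
      by_cases hi : N i ≤ Y₀
      · rw [if_pos hi]
        exact hdim
      · rw [if_neg hi, hc.dim i]
        norm_num
    · intro i j hij
      by_cases hi : N i ≤ Y₀
      · by_cases hj : N j ≤ Y₀
        · left
          simp only [hi, hj, if_true]
        · right
          exact hkey j hj _ (hc.fr i j hij) (hi (hc.fl i j hij))
      · by_cases hj : N j ≤ Y₀
        · right
          exact hkey i hi _ (hc.fl i j hij) (hj (hc.fr i j hij))
        · by_cases hNij : N i = N j
          · left
            simp only [hNij]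
          · right
            have h3 : D ≤ N i ⊓ N j := le_inf (hN i (hS i hi)) (hN j (hS j hj))
            have h4 : finrank ℝ (N i ⊓ N j : Submodule ℝ V) < 3 := by
              have h5 : N i ⊓ N j < N i := by
                refine lt_of_le_of_ne inf_le_left fun h => hNij ?_
                have h6 : N i ≤ N j := by
                  rw [← h]
                  exact inf_le_right
                exact Submodule.eq_of_le_of_finrank_eq h6 ((hc.dim i).trans (hc.dim j).symm)
              have h6 := Submodule.finrank_lt_finrank_of_lt h5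
              rwa [hc.dim i] at h6
            have h5 : D = N i ⊓ N j := Submodule.eq_of_le_of_finrank_le h3 (by omega)
            rw [h5]
            exact ⟨hc.fl i j hij, hc.fr i j hij⟩
  · -- then all the ordinary members are equal
    refine hcase1 (D ⊔ Submodule.span ℝ {a}) ?_ ?_
    · have h3 := Submodule.finrank_sup_add_finrank_inf_eq D (Submodule.span ℝ {a})
      rw [finrank_span_singleton ha] at h3
      omega
    · intro x hu hv
      exact (eq_sup_span (hc.dim x) hD (hN x ⟨hu, hv⟩) (haN x) haD).le

end Pool.Agent.Helper2.KC
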