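import Pool.Agent.Helper53.KC.Goals

/-!
# Almost every matroid is `k`-connected: NUMS, the parameters for the stable sets
-/

namespace Pool.Agent.Helper2.KC

open Finset Pool.Agent.Helper53.KC

theorem pow_aux : ∀ s : ℕ, 20 ≤ s → 3 * (s + 1) ^ 4 ≤ 2 ^ s := by
  intro s hs
  induction s, hs using Nat.le_induction with
  | base => norm_num
  | succ s hs ih =>
    have h1 : (s + 2) ^ 4 ≤ 2 * (s + 1) ^ 4 := by
      have : (s + 2) ^ 4 = (s + 1) ^ 4 + 4 * (s + 1) ^ 3 + 6 * (s + 1) ^ 2 + 4 * (s + 1) + 1 := by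
        ring
      rw [this]
      nlinarith [Nat.zero_le s, pow_pos (Nat.succ_pos s) 3, pow_pos (Nat.succ_pos s) 2,
        pow_pos (Nat.succ_pos s) 1, Nat.mul_le_mul_left ((s + 1) ^ 3) hs,
        Nat.mul_le_mul_left ((s + 1) ^ 2) hs, Nat.mul_le_mul_left (s + 1) hs]
    calc 3 * (s + 1 + 1) ^ 4 = 3 * (s + 2) ^ 4 := by ring
      _ ≤ 3 * (2 * (s + 1) ^ 4) := Nat.mul_le_mul_left _ h1
      _ = 2 * (3 * (s + 1) ^ 4) := by ring
      _ ≤ 2 * 2 ^ s := Nat.mul_le_mul_left _ ih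
      _ = 2 ^ (s + 1) := by ring

/-- NUMS. -/
theorem nums (hBL : BlStmt) (hCEN : CenStmt) : NumsStmt := by
  obtain ⟨⟨n₁, hn₁⟩, -⟩ := hCEN
  refine ⟨max n₁ 1000, fun n hn r hc => ?_⟩
  have hnn : n₁ ≤ n := (le_max_left _ _).trans hn
  have hn2 : 1000 ≤ n := (le_max_right _ _).trans hn
  obtain ⟨hr1, hr2⟩ := hn₁ n hnn r hc
  set N := n.choose r with hN
  have hrn : r < n := by omega
  have hr0 : 1 ≤ r := by omega
  have hNpos : 0 < N := Nat.choose_pos hrn.le
  set s := Nat.sqrt n with hs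
  have hs1 : s * s ≤ n := Nat.sqrt_le n
  have hs2 : n < (s + 1) * (s + 1) := Nat.lt_succ_sqrt n
  have hs20 : 20 ≤ s := by
    by_contra h
    push Not at h
    have : (s + 1) * (s + 1) ≤ 20 * 20 := Nat.mul_le_mul (by omega) (by omega)
    omega
  have hspos : 0 < s := by omega
  have hnpos : 0 < n := by omega
  have hden : 0 < r * (n - r + 1) := Nat.mul_pos hr0 (Nat.succ_pos _)
  set P := r * (n - r + 1) with hP
  -- the real versions
  have hnR : (0 : ℝ) < n := by exact_mod_cast hnpos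
  have hsR : (0 : ℝ) < s := by exact_mod_cast hspos
  have hNR : (0 : ℝ) < N := by exact_mod_cast hNpos
  have hPR : (3 : ℝ) * n ^ 2 ≤ 16 * P := by
    have h1 : (n : ℝ) ≤ 4 * r := by exact_mod_cast hr1
    have h2 : (4 : ℝ) * r ≤ 3 * n := by exact_mod_cast hr2
    have h3 : (P : ℝ) = r * (n - r + 1) := by
      rw [hP]
      push_cast [Nat.cast_sub hrn.le]
      ring
    rw [h3]
    nlinarith [mul_nonneg (sub_nonneg.mpr h1) (sub_nonneg.mpr h2)]
  have hPpos : (0 : ℝ) < P := by exact_mod_cast hden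
  have hdiv : ∀ x y : ℝ, 0 ≤ x → x ≤ y → N * x / P ≤ 16 * N * y / (3 * n ^ 2) := by
    intro x y hx hxy
    rw [div_le_div_iff₀ hPpos (by positivity)]
    have h1 : (0 : ℝ) ≤ N * x := by positivity
    have h2 : (N : ℝ) * x ≤ N * y := mul_le_mul_of_nonneg_left hxy hNR.le
    calc (N : ℝ) * x * (3 * n ^ 2) ≤ N * x * (16 * P) := mul_le_mul_of_nonneg_left hPR h1
      _ ≤ N * y * (16 * P) := mul_le_mul_of_nonneg_right h2 (by positivity)
      _ = 16 * N * y * P := by ring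
  have hrR : (r : ℝ) ≤ n := by exact_mod_cast hrn.le
  have hs1R : (s : ℝ) * s ≤ n := by exact_mod_cast hs1
  have hs1R' : (1 : ℝ) ≤ s := by exact_mod_cast hspos
  have hpow : (3 : ℝ) * n ^ 2 ≤ 2 ^ s := by
    have h1 := pow_aux s hs20
    have h2 : 3 * n ^ 2 ≤ 3 * (s + 1) ^ 4 := by
      have : n ^ 2 ≤ ((s + 1) * (s + 1)) ^ 2 := Nat.pow_le_pow_left hs2.le 2
      calc 3 * n ^ 2 ≤ 3 * ((s + 1) * (s + 1)) ^ 2 := Nat.mul_le_mul_left _ this
        _ = 3 * (s + 1) ^ 4 := by ring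
    exact_mod_cast h2.trans h1
  have he3 : Real.exp 1 ≤ 3 := (Real.exp_one_lt_d9.le.trans (by norm_num))
  set u₁ := N / (n * s) with hu₁
  set a₁ := N * (n * s + r) / P with ha₁
  set u₂ := a₁ / n with hu₂
  set a₂ := N * (n + r) / P with ha₂
  refine ⟨n * s, n, u₁, a₁, u₂, a₂, hr0, hrn, Nat.mul_pos hnpos hspos, hnpos,
    Nat.lt_mul_div_succ _ (Nat.mul_pos hnpos hspos), ?_, Nat.lt_mul_div_succ _ hnpos, ?_, ?_⟩
  · rw [mul_comm (a₁ + 1)]
    exact Nat.lt_mul_div_succ _ hden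
  · rw [mul_comm (a₂ + 1)]
    exact Nat.lt_mul_div_succ _ hden
  -- the three factors
  have e1 : (bl N u₁ : ℝ) ≤ (2 : ℝ) ^ ((N : ℝ) / n) := by
    have hy0 : (0 : ℝ) < N / (n * s) := by positivity
    have h1 := hBL N u₁ (N / (n * s)) (by
      rw [hu₁]
      refine Nat.cast_div_le.trans ?_
      push_cast
      exact le_rfl) hy0 (by
      rw [div_le_iff₀ (by positivity)]
      have : (1 : ℝ) ≤ n * s := by exact_mod_cast Nat.mul_pos hnpos hspos
      nlinarith)
    refine h1.trans ?_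
    have h2 : Real.exp 1 * N / (N / (n * s)) = Real.exp 1 * (n * s) := by
      field_simp
    rw [h2]
    have h3 : Real.exp 1 * (n * s) ≤ (2 : ℝ) ^ (s : ℝ) := by
      rw [Real.rpow_natCast]
      refine le_trans ?_ hpow
      have : (s : ℝ) ≤ n := by nlinarith
      calc Real.exp 1 * (n * s) ≤ 3 * (n * n) :=
            mul_le_mul he3 (mul_le_mul_of_nonneg_left this hnR.le) (by positivity) (by norm_num)
        _ = 3 * n ^ 2 := by ring
    refine (Real.rpow_le_rpow (by positivity) h3 hy0.le).trans ?_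
    rw [← Real.rpow_mul (by norm_num)]
    refine le_of_eq ?_
    congr 1
    field_simp
  have e2 : (bl N u₂ : ℝ) ≤ (2 : ℝ) ^ (12 * (N : ℝ) / n) := by
    have hy0 : (0 : ℝ) < 6 * N * (s + 1) / n ^ 2 := by positivity
    have hu : (u₂ : ℝ) ≤ 6 * N * (s + 1) / n ^ 2 := by
      have h1 : (a₁ : ℝ) ≤ N * (n * s + r) / P := by
        rw [ha₁]
        refine Nat.cast_div_le.trans ?_
        push_cast
        exact le_rfl
      have h2 := hdiv (n * s + r) (n * (s + 1)) (by positivity) (by nlinarith)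
      have h3 : (u₂ : ℝ) ≤ a₁ / n := by
        rw [hu₂]
        exact Nat.cast_div_le
      refine h3.trans ?_
      rw [div_le_iff₀ hnR]
      refine (h1.trans h2).trans ?_
      rw [div_le_iff₀ (by positivity)]
      have h4 : 6 * (N : ℝ) * (s + 1) / n ^ 2 * n * (3 * n ^ 2) = 18 * N * (s + 1) * n := by
        field_simp
        ring
      rw [h4]
      have : (0 : ℝ) ≤ N * (s + 1) * n := by positivity
      nlinarith
    have h1 := hBL N u₂ _ hu hy0 (by
      rw [div_le_iff₀ (by positivity)]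
      have h5 : (6 : ℝ) * (s + 1) ≤ n ^ 2 := by
        have h6 : (s : ℝ) ≤ n := by nlinarith
        have h7 : (1000 : ℝ) ≤ n := by exact_mod_cast hn2
        nlinarith
      calc 6 * (N : ℝ) * (s + 1) = N * (6 * (s + 1)) := by ring
        _ ≤ N * n ^ 2 := mul_le_mul_of_nonneg_left h5 hNR.le)
    refine h1.trans ?_
    have h2 : Real.exp 1 * N / (6 * N * (s + 1) / n ^ 2) = Real.exp 1 * n ^ 2 / (6 * (s + 1)) := by
      field_simp
    rw [h2]
    have h3 : Real.exp 1 * n ^ 2 / (6 * (s + 1)) ≤ (2 : ℝ) ^ (s : ℝ) := by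
      rw [Real.rpow_natCast]
      refine le_trans ?_ hpow
      rw [div_le_iff₀ (by positivity)]
      have h4 : Real.exp 1 * (n : ℝ) ^ 2 ≤ 3 * n ^ 2 :=
        mul_le_mul_of_nonneg_right he3 (by positivity)
      have h5 : (0 : ℝ) ≤ 3 * (n : ℝ) ^ 2 := by positivity
      nlinarith
    refine (Real.rpow_le_rpow (by positivity) h3 hy0.le).trans ?_
    rw [← Real.rpow_mul (by norm_num)]
    refine Real.rpow_le_rpow_of_exponent_le (by norm_num) ?_
    rw [le_div_iff₀ hnR]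
    have h6 : (s : ℝ) * (6 * N * (s + 1) / n ^ 2) * n = 6 * N * (s * (s + 1)) / n := by
      field_simp
    rw [h6, div_le_iff₀ hnR]
    have h7 : (s : ℝ) * (s + 1) ≤ 2 * n := by nlinarith
    calc 6 * (N : ℝ) * (s * (s + 1)) ≤ 6 * N * (2 * n) :=
          mul_le_mul_of_nonneg_left h7 (by positivity)
      _ = 12 * N * n := by ring
  have e3 : (2 : ℝ) ^ a₂ ≤ (2 : ℝ) ^ (11 * (N : ℝ) / n) := by
    rw [← Real.rpow_natCast]
    refine Real.rpow_le_rpow_of_exponent_le (by norm_num) ?_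
    have h1 : (a₂ : ℝ) ≤ N * (n + r) / P := by
      rw [ha₂]
      refine Nat.cast_div_le.trans ?_
      push_cast
      exact le_rfl
    have h2 := hdiv (n + r) (2 * n) (by positivity) (by linarith)
    refine (h1.trans h2).trans ?_
    rw [div_le_div_iff₀ (by positivity) hnR]
    have : (0 : ℝ) ≤ N * n ^ 2 := by positivity
    nlinarith
  push_cast
  have hb1 : (0 : ℝ) ≤ bl N u₁ := Nat.cast_nonneg _
  have hb2 : (0 : ℝ) ≤ bl N u₂ := Nat.cast_nonneg _
  calc (bl N u₁ : ℝ) * bl N u₂ * 2 ^ a₂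
      ≤ (2 : ℝ) ^ ((N : ℝ) / n) * (2 : ℝ) ^ (12 * (N : ℝ) / n) * (2 : ℝ) ^ (11 * (N : ℝ) / n) :=
        mul_le_mul (mul_le_mul e1 e2 hb2 (by positivity)) e3 (by positivity) (by positivity)
    _ = (2 : ℝ) ^ ((N : ℝ) / n + 12 * (N : ℝ) / n + 11 * (N : ℝ) / n) := by
        rw [← Real.rpow_add (by norm_num), ← Real.rpow_add (by norm_num)]
    _ ≤ (2 : ℝ) ^ (33 * (N : ℝ) / n) := by
        refine Real.rpow_le_rpow_of_exponent_le (by norm_num) ?_
        have h : (0 : ℝ) ≤ N / n := by positivity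
        have h2 : (N : ℝ) / n + 12 * (N : ℝ) / n + 11 * (N : ℝ) / n = 24 * (N / n) := by ring
        have h3 : 33 * (N : ℝ) / n = 33 * (N / n) := by ring
        rw [h2, h3]
        linarith

end Pool.Agent.Helper2.KC
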